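import Pool.Agent.N805.GH.C

/-!
# Each half of the GUE hypothesis for the spacings implies the whole

Assume the Riemann hypothesis, let `F N s` be the proportion of the indices `n ≤ N` with `δ n ≤ s`
and let `G` be the Gaudin distribution function, `G(s) = 1 + E'(s) = ∫_0^s p`, where `E` is given by
the solution `σ` of the Painlevé equation as in the problem.

The hypothesis Q1 is equivalent to the upper bound `limsup F N s ≤ G s` for all `s > 0`, and also to
the lower bound `liminf F N s ≥ G s` for all `s > 0`; the same holds for `N` restricted to any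
sequence.  More precisely the area between the graphs of `F N` and `G` above `G` and that below `G`
have the same limit, so the whole deviation `∫ |F N - G|` is, up to `o(1)`, twice the deviation to
either side, and Q1 holds if and only if it tends to `0`.
-/

open Filter Set MeasureTheory Topology Asymptotics

namespace Pool.Agent.Results.MP_7eacff_nt.HalfSuffices

/-- multiplicity of `s` as a zero of the Riemann zeta function (order of vanishing at `s`) -/
noncomputable def zmult (s : ℂ) : ℕ := analyticOrderNatAt riemannZeta s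

/-- the number of nontrivial zeros of `ζ` with ordinate in `(0, t]`, with multiplicity -/
noncomputable def NZ (t : ℝ) : ℕ :=
  ∑ᶠ s ∈ {s : ℂ | riemannZeta s = 0 ∧ 0 < s.re ∧ s.re < 1 ∧ 0 < s.im ∧ s.im ≤ t}, zmult s

/-- for `n ≥ 1`: the `n`-th positive ordinate `γ n` of a nontrivial zero of `ζ`, the ordinates being
listed in nondecreasing order and repeated according to multiplicity -/
noncomputable def γ (n : ℕ) : ℝ := sInf {t : ℝ | n ≤ NZ t}

/-- the unfolded consecutive gaps `δ_n = (γ_{n+1} - γ_n) / 2π · log (γ_n / 2π)` -/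
noncomputable def δ (n : ℕ) : ℝ := (γ (n + 1) - γ n) / (2 * Real.pi) * Real.log (γ n / (2 * Real.pi))

/-- `σ` is a solution of the sigma form of Painlevé V with the asymptotics of the problem -/
structure IsSigma (σ : ℝ → ℝ) : Prop where
  diff : ∀ t : ℝ, 0 < t → DifferentiableAt ℝ σ t
  diff2 : ∀ t : ℝ, 0 < t → DifferentiableAt ℝ (deriv σ) t
  ode : ∀ t : ℝ, 0 < t → (t * deriv (deriv σ) t) ^ 2 +
    4 * (t * deriv σ t - σ t) * (t * deriv σ t - σ t + deriv σ t ^ 2) = 0
  zero : IsEquivalent (𝓝[>] 0) σ (fun t => -(t / Real.pi) - (t / Real.pi) ^ 2)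
  top : IsEquivalent atTop σ (fun t => -(t / 2) ^ 2 - 1 / 4)

/-- `E(s) = exp (∫_0^{π s} σ(t)/t dt)` -/
noncomputable def E (σ : ℝ → ℝ) (s : ℝ) : ℝ := Real.exp (∫ t in (0 : ℝ)..Real.pi * s, σ t / t)

/-- the Gaudin density `p = E''` -/
noncomputable def p (σ : ℝ → ℝ) (s : ℝ) : ℝ := deriv (deriv (E σ)) s

/-- the Gaudin distribution function `G = 1 + E'` -/
noncomputable def G (σ : ℝ → ℝ) (s : ℝ) : ℝ := 1 + deriv (E σ) s

/-- the proportion of the indices `1 ≤ n ≤ N` with `δ n ≤ s` -/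
noncomputable def F (N : ℕ) (s : ℝ) : ℝ := (1 / N : ℝ) * ({n : ℕ | 1 ≤ n ∧ n ≤ N ∧ δ n ≤ s}.ncard : ℝ)

/-- the conjecture Q1 for `N` running through the sequence `φ` -/
def Q1 (σ : ℝ → ℝ) (φ : ℕ → ℕ) : Prop := ∀ α β : ℝ, 0 < α → α < β →
  Tendsto (fun j => (1 / (φ j : ℕ) : ℝ) * ({n : ℕ | 1 ≤ n ∧ n ≤ φ j ∧ α ≤ δ n ∧ δ n ≤ β}.ncard : ℝ)) atTop
    (𝓝 (∫ s in α..β, p σ s))

open Pool.Agent.N805.GH in
/-- Assume the Riemann hypothesis, and let `G` be the Gaudin distribution function (`G(0+) = 0`,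
`G(∞) = 1`, `G' = p`).  For every sequence `φ j → ∞`: Q1 along `φ` is equivalent to the upper bound
`limsup_j F (φ j) s ≤ G s` for all `s > 0`, to the lower bound `liminf_j F (φ j) s ≥ G s` for all
`s > 0`, and to `∫_0^∞ |F (φ j) - G| → 0`.  And
`∫_0^∞ |F N - G| = 2 ∫_0^∞ (F N - G)⁺ + o(1) = 2 ∫_0^∞ (G - F N)⁺ + o(1)` as `N → ∞`. -/
theorem result (RH : RiemannHypothesis) (σ : ℝ → ℝ) (hσ : IsSigma σ) :
    (Tendsto (G σ) (𝓝[>] 0) (𝓝 0) ∧ Tendsto (G σ) atTop (𝓝 1) ∧
      ∀ α β : ℝ, 0 < α → α ≤ β → ∫ s in α..β, p σ s = G σ β - G σ α) ∧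
    (∀ φ : ℕ → ℕ, Tendsto φ atTop atTop →
      (Q1 σ φ ↔ ∀ s : ℝ, 0 < s → ∀ ε : ℝ, 0 < ε → ∀ᶠ j in atTop, F (φ j) s ≤ G σ s + ε) ∧
      (Q1 σ φ ↔ ∀ s : ℝ, 0 < s → ∀ ε : ℝ, 0 < ε → ∀ᶠ j in atTop, G σ s - ε ≤ F (φ j) s) ∧
      (Q1 σ φ ↔ Tendsto (fun j => ∫ s in Ioi 0, |F (φ j) s - G σ s|) atTop (𝓝 0))) ∧
    Tendsto (fun N : ℕ => (∫ s in Ioi 0, |F N s - G σ s|) - 2 * ∫ s in Ioi 0, max (F N s - G σ s) 0)
      atTop (𝓝 0) ∧
    Tendsto (fun N : ℕ => (∫ s in Ioi 0, |F N s - G σ s|) - 2 * ∫ s in Ioi 0, max (G σ s - F N s) 0)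
      atTop (𝓝 0) := by
  have hRHs : SP.RHs := by
    intro s h1 h2 h0
    apply RH s h0
    · rintro ⟨k, hk⟩
      have := congrArg Complex.re hk
      simp at this
      have hk0 : (0 : ℝ) ≤ k := Nat.cast_nonneg k
      linarith
    · intro h; rw [h] at h2; simp at h2
  have h : Pool.Agent.N805.GH.IsSigma σ := ⟨hσ.diff, hσ.diff2, hσ.ode, hσ.zero, hσ.top⟩
  have hG : ∀ s : ℝ, 0 < s → G σ s = 1 - g σ s := by
    intro s hs
    have e : E σ = Pool.Agent.N805.GH.E σ := rfl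
    unfold G
    rw [e, h.deriv_E hs]
    ring
  have hF : ∀ (N : ℕ) (s : ℝ), 1 ≤ N → F N s = 1 - fN N s := by
    intro N s hN
    have hNr : (N : ℝ) ≠ 0 := by positivity
    rw [fN_eq]
    have h1 : {n : ℕ | 1 ≤ n ∧ n ≤ N ∧ δ n ≤ s}.ncard + {n : ℕ | 1 ≤ n ∧ n ≤ N ∧ s < δ n}.ncard = N := by
      rw [← ncard_union_eq ?_ (fin_of N _) (fin_of N _)]
      · have e : {n : ℕ | 1 ≤ n ∧ n ≤ N ∧ δ n ≤ s} ∪ {n : ℕ | 1 ≤ n ∧ n ≤ N ∧ s < δ n} =
            (Finset.Icc 1 N : Set ℕ) := by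
          ext n
          simp only [mem_union, mem_setOf_eq, Finset.coe_Icc, mem_Icc]
          constructor
          · rintro (h1 | h1)
            · exact ⟨h1.1, h1.2.1⟩
            · exact ⟨h1.1, h1.2.1⟩
          · intro h1
            rcases le_or_gt (δ n) s with h2 | h2
            · exact Or.inl ⟨h1.1, h1.2, h2⟩
            · exact Or.inr ⟨h1.1, h1.2, h2⟩
        rw [e, ncard_coe_finset]
        simp
      · rw [disjoint_left]
        rintro n ⟨_, _, h4⟩ ⟨_, _, h3⟩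
        linarith
    have h2 : ({n : ℕ | 1 ≤ n ∧ n ≤ N ∧ δ n ≤ s}.ncard : ℝ) +
        ({n : ℕ | 1 ≤ n ∧ n ≤ N ∧ s < δ n}.ncard : ℝ) = N := by exact_mod_cast h1
    have e2 : {n : ℕ | 1 ≤ n ∧ n ≤ N ∧ s < Pool.Agent.R320.CL.dl n} =
        {n : ℕ | 1 ≤ n ∧ n ≤ N ∧ s < δ n} := rfl
    rw [e2]
    unfold F
    field_simp
    linarith
  have hQ : ∀ φ : ℕ → ℕ, Q1 σ φ ↔ Q σ φ := fun φ => Iff.rfl
  have hd : ∀ (N : ℕ) (s : ℝ), 1 ≤ N → 0 < s → F N s - G σ s = -(fN N s - g σ s) := by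
    intro N s hN hs
    rw [hF N s hN, hG s hs]
    ring
  refine ⟨⟨?_, ?_, ?_⟩, fun φ hφ => ⟨?_, ?_, ?_⟩, ?_, ?_⟩
  · have h1 := h.g_zero.const_sub 1
    rw [sub_self] at h1
    refine h1.congr' ?_
    filter_upwards [self_mem_nhdsWithin] with s hs
    exact (hG s hs).symm
  · have h1 := h.g_top.const_sub 1
    rw [sub_zero] at h1
    refine h1.congr' ?_
    filter_upwards [eventually_gt_atTop 0] with s hs
    exact (hG s hs).symm
  · intro α β hα hαβ
    rw [hG α hα, hG β (lt_of_lt_of_le hα hαβ)]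
    refine (h.int_p hα hαβ).trans ?_
    ring
  · rw [hQ, Q_low hRHs h hφ]
    refine forall_congr' fun s => forall_congr' fun hs => forall_congr' fun ε => forall_congr' fun hε => ?_
    refine eventually_congr ?_
    filter_upwards [hφ.eventually_ge_atTop 1] with j hj
    rw [hF _ _ hj, hG s hs]
    constructor <;> intro h <;> linarith
  · rw [hQ, Q_upp hRHs h hφ]
    refine forall_congr' fun s => forall_congr' fun hs => forall_congr' fun ε => forall_congr' fun hε => ?_
    refine eventually_congr ?_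
    filter_upwards [hφ.eventually_ge_atTop 1] with j hj
    rw [hF _ _ hj, hG s hs]
    constructor <;> intro h <;> linarith
  · rw [hQ, Q_mean hRHs h hφ]
    refine tendsto_congr' ?_
    filter_upwards [hφ.eventually_ge_atTop 1] with j hj
    refine setIntegral_congr_fun measurableSet_Ioi fun s hs => ?_
    rw [hd _ s hj hs, abs_neg]
  · refine (bal hRHs h).1.congr' ?_
    filter_upwards [eventually_ge_atTop 1] with N hN
    congr 1
    · refine setIntegral_congr_fun measurableSet_Ioi fun s hs => ?_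
      rw [hd _ s hN hs, abs_neg]
    · congr 1
      refine setIntegral_congr_fun measurableSet_Ioi fun s hs => ?_
      rw [hd _ s hN hs, neg_sub]
  · refine (bal hRHs h).2.congr' ?_
    filter_upwards [eventually_ge_atTop 1] with N hN
    congr 1
    · refine setIntegral_congr_fun measurableSet_Ioi fun s hs => ?_
      rw [hd _ s hN hs, abs_neg]
    · congr 1
      refine setIntegral_congr_fun measurableSet_Ioi fun s hs => ?_
      rw [← neg_sub (F N s), hd _ s hN hs, neg_neg]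

end Pool.Agent.Results.MP_7eacff_nt.HalfSuffices
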