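import Pool.Agent.N805.JG.LinkD

/-!
# Joint laws of the spacings of the zeros: each half suffices

Assume the Riemann hypothesis, let `δ n` be the unfolded gaps of the zeros, and compare the joint
laws of `r` gaps `(δ_{n+i})_{i ∈ I}`, `|I| = r`, `n ≤ N`, with the joint laws of the gaps of the
eigenangles of random unitary matrices (whose limits are the laws of the gaps in the bulk of GUE).
The joint laws of any `r` gaps are those of random matrices if and only if one half of this
statement holds, that is, one of the two inequalities for the probabilities of the lower orthants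
`{δ_{n+i} ≤ s_i}`, or one of the two inequalities for the upper orthants `{δ_{n+i} > s_i}`.
-/

open Filter MeasureTheory

namespace Pool.Agent.Results.MP_7eacff_nt.OneHalfOfJointLaws

/-! ### the zeros of the zeta function -/

/-- multiplicity of `s` as a zero of the Riemann zeta function (order of vanishing at `s`) -/
noncomputable def zmult (s : ℂ) : ℕ := analyticOrderNatAt riemannZeta s

/-- the number of nontrivial zeros of `ζ` with ordinate in `(0, t]`, with multiplicity -/
noncomputable def NZ (t : ℝ) : ℕ :=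
  ∑ᶠ s ∈ {s : ℂ | riemannZeta s = 0 ∧ 0 < s.re ∧ s.re < 1 ∧ 0 < s.im ∧ s.im ≤ t}, zmult s

/-- for `n ≥ 1`: the `n`-th positive ordinate `γ n` of a nontrivial zero of `ζ`, the ordinates being
listed in nondecreasing order and repeated according to multiplicity -/
noncomputable def γ (n : ℕ) : ℝ := sInf {t : ℝ | n ≤ NZ t}

/-- the unfolded consecutive gaps `δ_n = (γ_{n+1} - γ_n) / 2π · log (γ_n / 2π)` -/
noncomputable def δ (n : ℕ) : ℝ := (γ (n + 1) - γ n) / (2 * Real.pi) * Real.log (γ n / (2 * Real.pi))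

/-- the proportion of the `n ≤ N` such that `δ_{n+i} ≤ s_i` for all `i ∈ I` -/
noncomputable def F (N : ℕ) (I : Finset ℕ) (s : ℕ → ℝ) : ℝ :=
  ({n : ℕ | 1 ≤ n ∧ n ≤ N ∧ ∀ i ∈ I, δ (n + i) ≤ s i}.ncard : ℝ) / N

/-- the proportion of the `n ≤ N` such that `δ_{n+i} > s_i` for all `i ∈ I` -/
noncomputable def F' (N : ℕ) (I : Finset ℕ) (s : ℕ → ℝ) : ℝ :=
  ({n : ℕ | 1 ≤ n ∧ n ≤ N ∧ ∀ i ∈ I, s i < δ (n + i)}.ncard : ℝ) / N

/-! ### random unitary matrices -/

/-- `e(t) = exp (2 π i t)` -/
noncomputable def e (t : ℝ) : ℂ := Complex.exp (2 * Real.pi * t * Complex.I)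

/-- the joint law of the eigenangles `θ_i`, divided by `2π`, of a random `M × M` unitary matrix:
density `(1 / M!) ∏_{i < j} |e(θ_j) - e(θ_i)|²` on `[0, 1)^M` -/
noncomputable def cue (M : ℕ) : Measure (Fin M → ℝ) :=
  (volume.restrict (Set.univ.pi fun _ => Set.Ico (0 : ℝ) 1)).withDensity fun θ =>
    ENNReal.ofReal ((∏ i, ∏ j ∈ Finset.Ioi i, ‖e (θ j) - e (θ i)‖ ^ 2) / M.factorial)

/-- the points `M θ_i` in increasing order, continued periodically (period `M`) -/
noncomputable def pt {M : ℕ} (θ : Fin M → ℝ) (n : ℕ) : ℝ :=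
  if h : 0 < M then M * (θ (Tuple.sort θ ⟨n % M, Nat.mod_lt n h⟩) + (n / M : ℕ)) else 0

/-- the gaps between consecutive points; their mean value is one -/
noncomputable def gap {M : ℕ} (θ : Fin M → ℝ) (n : ℕ) : ℝ := pt θ (n + 1) - pt θ n

/-- the probability that `gap (a + i) ≤ s_i` for all `i ∈ I`, for a random eigenangle (number
`a < M`) of a random `M × M` unitary matrix -/
noncomputable def G (M : ℕ) (I : Finset ℕ) (s : ℕ → ℝ) : ℝ :=
  (∑ a ∈ Finset.range M, (cue M).real {θ | ∀ i ∈ I, gap θ (a + i) ≤ s i}) / M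

/-- the probability that `gap (a + i) > s_i` for all `i ∈ I` -/
noncomputable def G' (M : ℕ) (I : Finset ℕ) (s : ℕ → ℝ) : ℝ :=
  (∑ a ∈ Finset.range M, (cue M).real {θ | ∀ i ∈ I, s i < gap θ (a + i)}) / M

/-! ### asymptotic relations -/

/-- `f j s = g M s + o(1)` as `j, M → ∞`, for each `s` -/
def Same (f g : ℕ → (ℕ → ℝ) → ℝ) : Prop :=
  ∀ s : ℕ → ℝ, ∀ ε : ℝ, 0 < ε → ∃ K : ℕ, ∀ j, K ≤ j → ∀ M, K ≤ M → |f j s - g M s| ≤ ε

/-- `f j s ≤ g M s + o(1)` as `j, M → ∞`, for each `s` -/
def Below (f g : ℕ → (ℕ → ℝ) → ℝ) : Prop :=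
  ∀ s : ℕ → ℝ, ∀ ε : ℝ, 0 < ε → ∃ K : ℕ, ∀ j, K ≤ j → ∀ M, K ≤ M → f j s ≤ g M s + ε

/-- `g M s ≤ f j s + o(1)` as `j, M → ∞`, for each `s` -/
def Above (f g : ℕ → (ℕ → ℝ) → ℝ) : Prop :=
  ∀ s : ℕ → ℝ, ∀ ε : ℝ, 0 < ε → ∃ K : ℕ, ∀ j, K ≤ j → ∀ M, K ≤ M → g M s ≤ f j s + ε

/-- Assume RH.  (1) For every sequence of heights `N = φ j → ∞` and every `r`, the following are
equivalent: the joint distribution functions of any `≤ r` of the gaps `δ_n, δ_{n+1}, …` are
asymptotically those of random unitary matrices; the upper half of this for all sets `I` of `r`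
indices; the lower half; the upper half for the upper orthants; the lower half for the upper
orthants.  (2) All the joint laws are those of random unitary matrices if and only if one of the
four halves holds for the sets of consecutive indices `{0, …, r - 1}`, `r = 1, 2, …`.
(3) Without reference to random matrices: if for two sequences of heights the joint laws of `r` gaps
are asymptotically comparable (in the order given by the lower orthants, or by the upper orthants),
then the joint laws of any `≤ r` gaps are asymptotically equal. -/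
theorem result (RH : RiemannHypothesis) :
    (∀ φ : ℕ → ℕ, Tendsto φ atTop atTop → ∀ r : ℕ, List.TFAE [
      ∀ I : Finset ℕ, I.card ≤ r → Same (fun j => F (φ j) I) (fun M => G M I),
      ∀ I : Finset ℕ, I.card = r → Below (fun j => F (φ j) I) (fun M => G M I),
      ∀ I : Finset ℕ, I.card = r → Above (fun j => F (φ j) I) (fun M => G M I),
      ∀ I : Finset ℕ, I.card = r → Below (fun j => F' (φ j) I) (fun M => G' M I),
      ∀ I : Finset ℕ, I.card = r → Above (fun j => F' (φ j) I) (fun M => G' M I)]) ∧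
    (∀ φ : ℕ → ℕ, Tendsto φ atTop atTop → List.TFAE [
      ∀ I : Finset ℕ, Same (fun j => F (φ j) I) (fun M => G M I),
      ∀ r : ℕ, Below (fun j => F (φ j) (Finset.range r)) (fun M => G M (Finset.range r)),
      ∀ r : ℕ, Above (fun j => F (φ j) (Finset.range r)) (fun M => G M (Finset.range r)),
      ∀ r : ℕ, Below (fun j => F' (φ j) (Finset.range r)) (fun M => G' M (Finset.range r)),
      ∀ r : ℕ, Above (fun j => F' (φ j) (Finset.range r)) (fun M => G' M (Finset.range r))]) ∧
    (∀ φ ψ : ℕ → ℕ, Tendsto φ atTop atTop → Tendsto ψ atTop atTop → ∀ r : ℕ,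
      ((∀ I : Finset ℕ, I.card = r → ∀ s : ℕ → ℝ, ∀ ε : ℝ, 0 < ε →
          ∀ᶠ j in atTop, F (φ j) I s ≤ F (ψ j) I s + ε) ∨
        (∀ I : Finset ℕ, I.card = r → ∀ s : ℕ → ℝ, ∀ ε : ℝ, 0 < ε →
          ∀ᶠ j in atTop, F' (φ j) I s ≤ F' (ψ j) I s + ε)) →
      ∀ I : Finset ℕ, I.card ≤ r → ∀ (s : ℕ → ℝ) (d ε : ℝ), 0 < d → 0 < ε → ∀ᶠ j in atTop,
        F (ψ j) I s ≤ F (φ j) I (fun i => s i + d) + ε ∧
        F (φ j) I s ≤ F (ψ j) I (fun i => s i + d) + ε) := by
  have hRHs : SP.RHs := by
    intro s h1 h2 h0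
    apply RH s h0
    · rintro ⟨k, hk⟩
      have := congrArg Complex.re hk
      simp at this
      have hk0 : (0 : ℝ) ≤ k := Nat.cast_nonneg k
      linarith
    · intro h; rw [h] at h2; simp at h2
  have hδ : ∀ n, δ n = Pool.Agent.R320.CL.dl n := fun n => rfl
  have hF : ∀ N I s, F N I s = Pool.Agent.N805.JG.D.Fz N I s := by
    intro N I s
    unfold F Pool.Agent.N805.JG.D.Fz
    simp_rw [hδ]
  have hF' : ∀ N I s, F' N I s = Pool.Agent.N805.JG.D.FzU N I s := by
    intro N I s
    unfold F' Pool.Agent.N805.JG.D.FzU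
    simp_rw [hδ]
  have hG : ∀ M I s, G M I s = Pool.Agent.N805.JG.Gq M I s := fun M I s => rfl
  have hG' : ∀ M I s, G' M I s = Pool.Agent.N805.JG.GqU M I s := fun M I s => rfl
  refine ⟨fun φ hφ r => ?_, fun φ hφ => ?_, fun φ ψ hφ hψ r h => ?_⟩
  · have h := Pool.Agent.N805.JG.D.explicit hRHs φ hφ r
    unfold Same Below Above
    simp_rw [hF, hF', hG, hG']
    exact h
  · have h := Pool.Agent.N805.JG.D.explicit_all hRHs φ hφ
    have e0 : (∀ I : Finset ℕ, Same (fun j => F (φ j) I) (fun M => G M I)) ↔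
        ∀ r : ℕ, ∀ I : Finset ℕ, I.card ≤ r → Same (fun j => F (φ j) I) (fun M => G M I) :=
      ⟨fun h r I _ => h I, fun h I => h I.card I le_rfl⟩
    rw [e0]
    unfold Same Below Above
    simp_rw [hF, hF', hG, hG']
    exact h
  · simp_rw [hF, hF'] at h
    simp_rw [hF]
    exact Pool.Agent.N805.JG.D.antichain hRHs φ ψ hφ hψ r h

end Pool.Agent.Results.MP_7eacff_nt.OneHalfOfJointLaws
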