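import Pool.Agent.N670.GS.Cob
import Pool.Agent.N670.GS.Sharp

/-!
# The unfolded gaps of the zeta zeros are not periodic plus a coboundary: sharp form

Let `δ n` be the unfolded gaps of the problem, of mean value `1` (the Riemann hypothesis is not used:
`γ n` is the `n`-th positive ordinate of a nontrivial zero).

(1) Let `Q ≥ 1` and `η > 0`.  There is `C > 0` such that for every `K ≥ 1` and all large `N` the
following holds, with `ε = exp (-C K²)`.  Let `p` and `x` be real sequences with
`|p_{n+Q} - p_n| < ε` and `|δ_n - p_n - (x_{n+1} - x_n)| < ε` for all but at most `ε N` of the indices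
`n ≤ N` (two sets of exceptions).  Then `|x_n| > K` for all but at most `η N` of the indices `n ≤ N`.
So the gaps are not close to the sum of an approximately periodic sequence and of the differences of
a sequence which is tight (bounded in measure); the case `x = 0` says that they are not approximately
periodic, even locally.

(2) This is sharp up to the value of `C`: for every `η > 0` there is `c > 0` such that for large `K`
and all large `N` some sequence `x` satisfies `δ_n = 1 + x_{n+1} - x_n` for all but at most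
`exp (-c K²) N` of the `n ≤ N` and `|x_n| ≤ K` for all but at most `η N` of them.

The proofs use the central limit theorem for the sums of `r` consecutive gaps (Selberg, Fujii), whose
fluctuations have the exact order `√(log r)`.  The abstract second difference inequality is the
theorem `Pool.Agent.X112.GS.quant` of the starting files, which no starting hand-in uses; the
theorems (1) for the gaps `δ_n` and (2) are new (`Pool.Agent.N670.GS`).
-/

set_option autoImplicit false

open Filter

namespace Pool.Agent.Results.MP_7eacff_nt.PeriodicPlusCoboundary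

/-- multiplicity of `s` as a zero of the Riemann zeta function (order of vanishing at `s`) -/
noncomputable def zmult (s : ℂ) : ℕ := analyticOrderNatAt riemannZeta s

/-- the number of nontrivial zeros of `ζ` with ordinate in `(0, t]`, with multiplicity -/
noncomputable def NZ (t : ℝ) : ℕ :=
  ∑ᶠ s ∈ {s : ℂ | riemannZeta s = 0 ∧ 0 < s.re ∧ s.re < 1 ∧ 0 < s.im ∧ s.im ≤ t}, zmult s

/-- for `n ≥ 1`: the `n`-th positive ordinate `γ n` of a nontrivial zero of `ζ`, the ordinates being
listed in nondecreasing order and repeated according to multiplicity -/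
noncomputable def γ (n : ℕ) : ℝ := sInf {t : ℝ | n ≤ NZ t}

/-- the unfolded consecutive gaps `δ_n = (γ_{n+1} - γ_n) / 2π · log (γ_n / 2π)` -/
noncomputable def δ (n : ℕ) : ℝ :=
  (γ (n + 1) - γ n) / (2 * Real.pi) * Real.log (γ n / (2 * Real.pi))

/-- the number of the indices `1 ≤ n ≤ N` with the property `P` -/
noncomputable def count (N : ℕ) (P : ℕ → Prop) : ℝ := ({n : ℕ | 1 ≤ n ∧ n ≤ N ∧ P n}.ncard : ℝ)

lemma count_eq (N : ℕ) (P : ℕ → Prop) [DecidablePred P] :
    count N P = (((Finset.Icc 1 N).filter P).card : ℝ) := by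
  unfold count
  have : {n : ℕ | 1 ≤ n ∧ n ≤ N ∧ P n} = ((Finset.Icc 1 N).filter P : Set ℕ) := by
    ext n
    rw [Finset.coe_filter]
    constructor
    · rintro ⟨h1, h2, h3⟩
      exact ⟨Finset.mem_Icc.mpr ⟨h1, h2⟩, h3⟩
    · rintro ⟨h1, h2⟩
      exact ⟨(Finset.mem_Icc.mp h1).1, (Finset.mem_Icc.mp h1).2, h2⟩
  rw [this, Set.ncard_coe_finset]

/-- Unconditionally, for every `η > 0`: (1) if, up to `exp (-C K²)` and for all but a proportion
`exp (-C K²)` of the indices, `δ_n = p_n + x_{n+1} - x_n` with `p_{n+Q} = p_n`, then `|x_n| > K` for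
all but a proportion `η` of the indices; (2) conversely one can have `δ_n = 1 + x_{n+1} - x_n` for
all but a proportion `exp (-c K²)` of the indices, with `|x_n| ≤ K` for all but a proportion `η`. -/
theorem result (η : ℝ) (hη : 0 < η) :
    (∀ Q : ℕ, 1 ≤ Q → ∃ C : ℝ, 0 < C ∧ ∀ K : ℝ, 1 ≤ K → ∀ᶠ N : ℕ in atTop, ∀ p x : ℕ → ℝ,
      count N (fun n => Real.exp (-C * K ^ 2) ≤ |p (n + Q) - p n|) ≤ Real.exp (-C * K ^ 2) * N →
      count N (fun n => Real.exp (-C * K ^ 2) ≤ |δ n - p n - (x (n + 1) - x n)|) ≤
        Real.exp (-C * K ^ 2) * N →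
      count N (fun n => |x n| ≤ K) ≤ η * N) ∧
    ∃ c : ℝ, 0 < c ∧ ∃ K₀ : ℝ, 1 ≤ K₀ ∧ ∀ K : ℝ, K₀ ≤ K → ∀ᶠ N : ℕ in atTop, ∃ x : ℕ → ℝ,
      count N (fun n => δ n ≠ 1 + (x (n + 1) - x n)) ≤ Real.exp (-c * K ^ 2) * N ∧
      count N (fun n => K < |x n|) ≤ η * N := by
  classical
  constructor
  · intro Q hQ
    obtain ⟨C, hC, h⟩ := Pool.Agent.N670.GS.cobq Q hQ η hη
    refine ⟨C, hC, fun K hK => ?_⟩
    filter_upwards [h K hK] with N hN p x hp hx
    rw [count_eq] at hp hx ⊢
    exact hN x p hp hx
  · obtain ⟨c, hc, K0, hK0, h⟩ := Pool.Agent.N670.GS.sharp η hη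
    refine ⟨c, hc, K0, hK0, fun K hK => ?_⟩
    filter_upwards [h K hK] with N hN
    obtain ⟨x, h1, h2⟩ := hN
    refine ⟨x, ?_, ?_⟩
    · rw [count_eq]
      exact h1
    · rw [count_eq]
      exact h2

end Pool.Agent.Results.MP_7eacff_nt.PeriodicPlusCoboundary
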